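import Mathlib

/-!
# Perturbed lattices: the combinatorial core

A point of the configuration is attached to every lattice point `(a, b)` of a large box: it has
coordinates `(a + u a b, b + v a b)` with `|u|, |v| ≤ e`.  `Dt` is the determinant of a triangle
of such points.
-/

set_option autoImplicit false

namespace Pool.Agent.Grain

/-- determinant of the triangle of the three perturbed lattice points `p, q, m` -/
def Dt (u v : ℤ → ℤ → ℝ) (p1 p2 q1 q2 m1 m2 : ℤ) : ℝ :=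
  (((q1 : ℝ) + u q1 q2) - (p1 + u p1 p2)) * (((m2 : ℝ) + v m1 m2) - (p2 + v p1 p2)) -
  (((q2 : ℝ) + v q1 q2) - (p2 + v p1 p2)) * (((m1 : ℝ) + u m1 m2) - (p1 + u p1 p2))

/-- the standing assumptions: `e`-perturbed lattice in the box `[-N, N]²`, and no small
determinant between a pair in `[0, L] × [0, 2]` and a far point -/
structure Bad (u v : ℤ → ℤ → ℝ) (N e α : ℝ) (L : ℤ) : Prop where
  hL : 2 ≤ L
  hN : 16 * (L : ℝ) ≤ N
  he : 0 < e
  he2 : e * (5 * L + 7) ≤ α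
  hα : α ≤ 1 / 8
  hu : ∀ a b : ℤ, |(a : ℝ)| ≤ N → |(b : ℝ)| ≤ N → |u a b| ≤ e
  hv : ∀ a b : ℤ, |(a : ℝ)| ≤ N → |(b : ℝ)| ≤ N → |v a b| ≤ e
  H : ∀ p1 p2 q1 q2 m1 m2 : ℤ, 0 ≤ p1 → p1 ≤ L → 0 ≤ p2 → p2 ≤ 2 → 0 ≤ q1 → q1 ≤ L →
      0 ≤ q2 → q2 ≤ 2 → (p1 ≠ q1 ∨ p2 ≠ q2) → |(m1 : ℝ)| ≤ N → |(m2 : ℝ)| ≤ N →
      (N / 16 ≤ |(m1 : ℝ) - p1| ∨ N / 16 ≤ |(m2 : ℝ) - p2|) → α < |Dt u v p1 p2 q1 q2 m1 m2|

/-- upper bound: the steps `g (b, 1)` are displaced only by `O((|b|+1)/N)` across -/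
theorem upper {u v : ℤ → ℤ → ℝ} {N e α : ℝ} {L : ℤ} (h : Bad u v N e α L)
    {p1 p2 b g : ℤ} (hp1 : 0 ≤ p1) (hp1' : p1 ≤ L) (hp2 : 0 ≤ p2) (hp2' : p2 + g ≤ 2)
    (hg : 1 ≤ g) (hq1 : 0 ≤ p1 + g * b) (hq1' : p1 + g * b ≤ L) :
    |(b : ℝ) * (v (p1 + g * b) (p2 + g) - v p1 p2) - (u (p1 + g * b) (p2 + g) - u p1 p2)| * N
      ≤ 12 * (|(b : ℝ)| + 1) := by
  obtain ⟨hL, hN, he, he2, hα, hu, hv, H⟩ := h
  have hLr : (2 : ℝ) ≤ L := by exact_mod_cast hL
  have hNpos : (32 : ℝ) ≤ N := by linarith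
  have he136 : e ≤ 1 / 136 := by
    have h1 : e * 17 ≤ e * (5 * L + 7) := by gcongr; linarith
    linarith
  have hg2 : g ≤ 2 := by linarith
  have hgr : (1 : ℝ) ≤ g := by exact_mod_cast hg
  have hgr2 : (g : ℝ) ≤ 2 := by exact_mod_cast hg2
  have hp1r : (0 : ℝ) ≤ p1 := by exact_mod_cast hp1
  have hp1r' : (p1 : ℝ) ≤ L := by exact_mod_cast hp1'
  have hp2r : (0 : ℝ) ≤ p2 := by exact_mod_cast hp2
  have hp2r' : (p2 : ℝ) + g ≤ 2 := by exact_mod_cast hp2'
  have hq1r : (0 : ℝ) ≤ p1 + g * b := by exact_mod_cast hq1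
  have hq1r' : (p1 : ℝ) + g * b ≤ L := by exact_mod_cast hq1'
  set B : ℝ := |(b : ℝ)| with hB
  have hB0 : 0 ≤ B := abs_nonneg _
  have hgB : (g : ℝ) * B ≤ L := by
    have h1 : (g : ℝ) * B = |(g : ℝ) * b| := by
      rw [abs_mul, abs_of_nonneg (by linarith : (0 : ℝ) ≤ g)]
    rw [h1, abs_le]
    constructor <;> linarith
  have hBL : B ≤ L := by
    have h1 : 1 * B ≤ g * B := by gcongr
    linarith
  -- points in the box
  have hpbox1 : |(p1 : ℝ)| ≤ N := by rw [abs_le]; constructor <;> linarith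
  have hpbox2 : |(p2 : ℝ)| ≤ N := by rw [abs_le]; constructor <;> linarith
  have hqbox1 : |((p1 + g * b : ℤ) : ℝ)| ≤ N := by
    push_cast; rw [abs_le]; constructor <;> linarith
  have hqbox2 : |((p2 + g : ℤ) : ℝ)| ≤ N := by
    push_cast; rw [abs_le]; constructor <;> linarith
  have hup := hu p1 p2 hpbox1 hpbox2
  have hvp := hv p1 p2 hpbox1 hpbox2
  have huq := hu (p1 + g * b) (p2 + g) hqbox1 hqbox2
  have hvq := hv (p1 + g * b) (p2 + g) hqbox1 hqbox2
  set dx : ℝ := u (p1 + g * b) (p2 + g) - u p1 p2 with hdx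
  set dy : ℝ := v (p1 + g * b) (p2 + g) - v p1 p2 with hdy
  have hdx2 : |dx| ≤ 2 * e := by
    calc |dx| ≤ |u (p1 + g * b) (p2 + g)| + |u p1 p2| := abs_sub _ _
      _ ≤ 2 * e := by linarith
  have hdy2 : |dy| ≤ 2 * e := by
    calc |dy| ≤ |v (p1 + g * b) (p2 + g)| + |v p1 p2| := abs_sub _ _
      _ ≤ 2 * e := by linarith
  set eta : ℝ := (b : ℝ) * dy - dx with heta
  by_contra hcon
  push Not at hcon
  have hG1 : (1 / 2 : ℝ) ≤ g + dy := by
    have := (abs_le.1 hdy2).1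
    linarith
  have hG2 : (g : ℝ) + dy ≤ 5 / 2 := by
    have := (abs_le.1 hdy2).2
    linarith
  set G : ℝ := g + dy with hG
  have hGpos : 0 < G := by linarith
  have heta_le : |eta| ≤ 2 * e * (B + 1) := by
    calc |eta| ≤ |(b : ℝ) * dy| + |dx| := abs_sub _ _
      _ = B * |dy| + |dx| := by rw [abs_mul]
      _ ≤ B * (2 * e) + 2 * e := by gcongr
      _ = 2 * e * (B + 1) := by ring
  have heta_pos : 0 < |eta| := by
    by_contra h0
    have : |eta| = 0 := le_antisymm (not_lt.1 h0) (abs_nonneg _)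
    rw [this, zero_mul] at hcon
    linarith
  obtain ⟨σ, hσ, hσeta⟩ : ∃ σ : ℤ, (σ = 1 ∨ σ = -1) ∧ eta = (σ : ℝ) * |eta| := by
    rcases le_or_gt 0 eta with h0 | h0
    · exact ⟨1, Or.inl rfl, by rw [abs_of_nonneg h0]; push_cast; ring⟩
    · exact ⟨-1, Or.inr rfl, by rw [abs_of_neg h0]; push_cast; ring⟩
  have hσsq : (σ : ℝ) * σ = 1 := by
    rcases hσ with h1 | h1 <;> rw [h1] <;> norm_num
  have hσabs : |(σ : ℝ)| = 1 := by
    rcases hσ with h1 | h1 <;> rw [h1] <;> norm_num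
  set s : ℝ := |eta| / G with hs
  have hspos : 0 < s := div_pos heta_pos hGpos
  have hsG : s * G = |eta| := div_mul_cancel₀ _ hGpos.ne'
  set k0 : ℝ := N / (4 * (B + 1)) with hk0
  have hk0B : k0 * (4 * (B + 1)) = N := div_mul_cancel₀ _ (by positivity)
  have hk0pos : 0 < k0 := by positivity
  -- `k0 * s ≥ 6/5`
  have hk0s : 6 / 5 < k0 * s := by
    have h1 : 12 * (B + 1) < (k0 * s) * (4 * (B + 1)) * G := by
      calc 12 * (B + 1) < |eta| * N := hcon
        _ = (s * G) * (k0 * (4 * (B + 1))) := by rw [hsG, hk0B]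
        _ = (k0 * s) * (4 * (B + 1)) * G := by ring
    by_contra h2
    push Not at h2
    have h3 : (k0 * s) * (4 * (B + 1)) * G ≤ 6 / 5 * (4 * (B + 1)) * (5 / 2) := by
      gcongr
    have h4 : 6 / 5 * (4 * (B + 1)) * (5 / 2) = 12 * (B + 1) := by ring
    linarith
  have hs2 : s ≤ 4 * e * (B + 1) := by
    have h1 : s * (1 / 2) ≤ s * G := by gcongr
    rw [hsG] at h1
    linarith
  have hk0s2 : k0 * s ≤ e * N := by
    calc k0 * s ≤ k0 * (4 * e * (B + 1)) := by gcongr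
      _ = e * (k0 * (4 * (B + 1))) := by ring
      _ = e * N := by rw [hk0B]
  set T : ℤ := ⌈k0 * s⌉ with hT
  have hT1 : k0 * s ≤ T := Int.le_ceil _
  have hT2 : (T : ℝ) < k0 * s + 1 := Int.ceil_lt_add_one _
  have hTpos : (0 : ℝ) < T := by linarith
  have hT3 : (T : ℝ) ≤ 2 * (k0 * s) := by linarith
  have hT4 : (T : ℝ) ≤ 2 * (e * N) := by linarith
  set K : ℤ := round ((T : ℝ) / s) with hK
  have hK1 : |(T : ℝ) / s - K| ≤ 1 / 2 := abs_sub_round _
  have hTs1 : k0 ≤ T / s := by rw [le_div_iff₀ hspos]; exact hT1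
  have hTs2 : (T : ℝ) / s ≤ 2 * k0 := by
    rw [div_le_iff₀ hspos]; linarith
  have hKlow : k0 - 1 / 2 ≤ K := by
    have := (abs_le.1 hK1).2
    linarith
  have hKup : (K : ℝ) ≤ 2 * k0 + 1 / 2 := by
    have := (abs_le.1 hK1).1
    linarith
  have hk0BB : k0 * B + k0 = N / 4 := by linarith
  have hk0B0 : 0 ≤ k0 * B := by positivity
  have hk0B' : k0 * B ≤ N / 4 := by linarith
  have hk0' : k0 ≤ N / 4 := by linarith
  have hK0 : (0 : ℝ) ≤ K := by
    -- k0 ≥ N/(4(L+1)) ≥ 2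
    have h1 : (1 / 2 : ℝ) ≤ k0 := by
      rw [hk0, le_div_iff₀ (by positivity)]
      linarith
    linarith
  have hσT : |(σ : ℝ) * T| = T := by
    rw [abs_mul, hσabs, one_mul, abs_of_pos hTpos]
  have hKb : |(K : ℝ) * b| = K * B := by
    rw [abs_mul, abs_of_nonneg hK0]
  have heN : e * N ≤ N / 136 := by
    have h1 : e * N ≤ 1 / 136 * N := by gcongr
    linarith
  -- the far point
  have hm1 : |((p1 + K * b - σ * T : ℤ) : ℝ)| ≤ N := by
    push_cast
    have h1 : |(p1 : ℝ) + K * b - σ * T| ≤ p1 + K * B + T := by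
      calc |(p1 : ℝ) + K * b - σ * T| ≤ |(p1 : ℝ) + K * b| + |(σ : ℝ) * T| := abs_sub _ _
        _ ≤ |(p1 : ℝ)| + |(K : ℝ) * b| + |(σ : ℝ) * T| := by
            gcongr
            exact abs_add_le _ _
        _ = p1 + K * B + T := by rw [hσT, hKb, abs_of_nonneg hp1r]
    have h2 : (K : ℝ) * B ≤ N / 2 + L / 2 := by
      calc (K : ℝ) * B ≤ (2 * k0 + 1 / 2) * B := by gcongr
        _ = 2 * (k0 * B) + B / 2 := by ring
        _ ≤ N / 2 + L / 2 := by linarith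
    linarith
  have hm2 : |((p2 + K : ℤ) : ℝ)| ≤ N := by
    push_cast
    rw [abs_of_nonneg (by linarith)]
    linarith
  have hfar : (N / 16 ≤ |((p1 + K * b - σ * T : ℤ) : ℝ) - p1| ∨
      N / 16 ≤ |((p2 + K : ℤ) : ℝ) - p2|) := by
    rcases eq_or_ne b 0 with hb | hb
    · right
      have hB00 : B = 0 := by rw [hB, hb]; simp
      have h1 : k0 * 4 = N := by rw [hB00] at hk0B; linarith
      push_cast
      rw [show (p2 : ℝ) + K - p2 = K by ring, abs_of_nonneg hK0]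
      linarith
    · left
      have hB1 : 1 ≤ B := by
        rw [hB]
        exact_mod_cast Int.one_le_abs hb
      have h1 : N / 8 ≤ k0 * B := by
        have h4 : k0 * 1 ≤ k0 * B := by gcongr
        linarith
      push_cast
      rw [show (p1 : ℝ) + K * b - σ * T - p1 = K * b - σ * T by ring]
      have h2 : |(K : ℝ) * b| - |(σ : ℝ) * T| ≤ |(K : ℝ) * b - σ * T| :=
        abs_sub_abs_le_abs_sub _ _
      rw [hσT, hKb] at h2
      have h3 : (k0 - 1 / 2) * B ≤ K * B := by gcongr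
      have h5 : (k0 - 1 / 2) * B = k0 * B - B / 2 := by ring
      linarith
  have hne : (p1 ≠ p1 + g * b ∨ p2 ≠ p2 + g) := Or.inr (by omega)
  have hD := H p1 p2 (p1 + g * b) (p2 + g) (p1 + K * b - σ * T) (p2 + K) hp1 hp1' hp2
    (by omega) hq1 hq1' (by omega) hp2' hne hm1 hm2 hfar
  have hum := hu _ _ hm1 hm2
  have hvm := hv _ _ hm1 hm2
  set um : ℝ := u (p1 + K * b - σ * T) (p2 + K) with hum'
  set vm : ℝ := v (p1 + K * b - σ * T) (p2 + K) with hvm'
  have hDeq : Dt u v p1 p2 (p1 + g * b) (p2 + g) (p1 + K * b - σ * T) (p2 + K) =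
      (σ * T * G - K * eta) + ((g * b + dx) * (vm - v p1 p2) - G * (um - u p1 p2)) := by
    simp only [Dt, ← hum', ← hvm', heta, hG, hdx, hdy]
    push_cast
    ring
  have hmain : |(σ : ℝ) * T * G - K * eta| ≤ e * (L + 1) := by
    have h1 : (σ : ℝ) * T * G - K * eta = σ * (|eta| * ((T : ℝ) / s - K)) := by
      have h2 : |eta| * ((T : ℝ) / s) = T * G := by
        rw [← hsG]
        field_simp
      have h3 : (K : ℝ) * eta = K * (σ * |eta|) := congrArg (fun t => (K : ℝ) * t) hσeta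
      rw [h3, mul_sub, h2]
      ring
    rw [h1, abs_mul, hσabs, one_mul, abs_mul, abs_abs]
    calc |eta| * |(T : ℝ) / s - K| ≤ (2 * e * (B + 1)) * (1 / 2) := by gcongr
      _ = e * (B + 1) := by ring
      _ ≤ e * (L + 1) := by gcongr
  have hrest : |(g * b + dx) * (vm - v p1 p2) - G * (um - u p1 p2)| ≤ 2 * e * (L + 3) := by
    have h1 : |(g : ℝ) * b + dx| ≤ L + 2 * e := by
      calc |(g : ℝ) * b + dx| ≤ |(g : ℝ) * b| + |dx| := abs_add_le _ _
        _ = g * B + |dx| := by rw [abs_mul, abs_of_nonneg (by linarith : (0 : ℝ) ≤ g)]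
        _ ≤ L + 2 * e := by linarith
    have h2 : |vm - v p1 p2| ≤ 2 * e := by
      calc |vm - v p1 p2| ≤ |vm| + |v p1 p2| := abs_sub _ _
        _ ≤ 2 * e := by linarith
    have h3 : |um - u p1 p2| ≤ 2 * e := by
      calc |um - u p1 p2| ≤ |um| + |u p1 p2| := abs_sub _ _
        _ ≤ 2 * e := by linarith
    calc |(g * b + dx) * (vm - v p1 p2) - G * (um - u p1 p2)|
        ≤ |(g * b + dx) * (vm - v p1 p2)| + |G * (um - u p1 p2)| := abs_sub _ _
      _ = |(g : ℝ) * b + dx| * |vm - v p1 p2| + G * |um - u p1 p2| := by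
          rw [abs_mul, abs_mul, abs_of_pos hGpos]
      _ ≤ (L + 2 * e) * (2 * e) + (5 / 2) * (2 * e) := by gcongr
      _ = 2 * e * (L + (2 * e + 5 / 2)) := by ring
      _ ≤ 2 * e * (L + 3) := by gcongr; linarith
  have hfin : |Dt u v p1 p2 (p1 + g * b) (p2 + g) (p1 + K * b - σ * T) (p2 + K)| ≤ α := by
    rw [hDeq]
    calc _ ≤ |(σ : ℝ) * T * G - K * eta| +
          |(g * b + dx) * (vm - v p1 p2) - G * (um - u p1 p2)| := abs_add_le _ _
      _ ≤ e * (L + 1) + 2 * e * (L + 3) := by gcongr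
      _ = e * (3 * L + 7) := by ring
      _ ≤ e * (5 * L + 7) := by gcongr; linarith
      _ ≤ α := he2
  linarith

/-- lower bound: two points of the row `1` have different heights -/
theorem lower {u v : ℤ → ℤ → ℝ} {N e α : ℝ} {L : ℤ} (h : Bad u v N e α L)
    {i j : ℤ} (hi : 0 ≤ i) (hi' : i ≤ L) (hj : 0 ≤ j) (hj' : j ≤ L) (hij : i ≠ j) :
    α / 2 < |v j 1 - v i 1| * N := by
  obtain ⟨hL, hN, he, he2, hα, hu, hv, H⟩ := h
  have hLr : (2 : ℝ) ≤ L := by exact_mod_cast hL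
  have hNpos : (32 : ℝ) ≤ N := by linarith
  have he136 : e ≤ 1 / 136 := by
    have h1 : e * 17 ≤ e * (5 * L + 7) := by gcongr; linarith
    linarith
  have hir : (0 : ℝ) ≤ i := by exact_mod_cast hi
  have hir' : (i : ℝ) ≤ L := by exact_mod_cast hi'
  have hjr : (0 : ℝ) ≤ j := by exact_mod_cast hj
  have hjr' : (j : ℝ) ≤ L := by exact_mod_cast hj'
  have hibox : |(i : ℝ)| ≤ N := by rw [abs_le]; constructor <;> linarith
  have hjbox : |(j : ℝ)| ≤ N := by rw [abs_le]; constructor <;> linarith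
  have h1box : |((1 : ℤ) : ℝ)| ≤ N := by push_cast; rw [abs_one]; linarith
  set M : ℤ := ⌊N / 2⌋ with hM
  have hM1 : (M : ℝ) ≤ N / 2 := Int.floor_le _
  have hM2 : N / 2 < M + 1 := Int.lt_floor_add_one _
  have hMbox : |(M : ℝ)| ≤ N := by rw [abs_le]; constructor <;> linarith
  have hfar : (N / 16 ≤ |(M : ℝ) - i| ∨ N / 16 ≤ |((1 : ℤ) : ℝ) - (1 : ℤ)|) := by
    left
    rw [abs_of_nonneg (by linarith)]
    linarith
  have hD := H i 1 j 1 M 1 hi hi' (by norm_num) (by norm_num) hj hj' (by norm_num) (by norm_num)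
    (Or.inl hij) hMbox h1box hfar
  have hui := hu i 1 hibox h1box
  have hvi := hv i 1 hibox h1box
  have huj := hu j 1 hjbox h1box
  have huM := hu M 1 hMbox h1box
  have hvM := hv M 1 hMbox h1box
  have hDeq : Dt u v i 1 j 1 M 1 =
      (((j : ℝ) - i) + (u j 1 - u i 1)) * (v M 1 - v i 1) -
        (v j 1 - v i 1) * (((M : ℝ) - i) + (u M 1 - u i 1)) := by
    simp only [Dt]
    push_cast
    ring
  rw [hDeq] at hD
  have h1 : |((j : ℝ) - i) + (u j 1 - u i 1)| ≤ L + 2 * e := by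
    calc |((j : ℝ) - i) + (u j 1 - u i 1)| ≤ |(j : ℝ) - i| + |u j 1 - u i 1| := abs_add_le _ _
      _ ≤ L + (|u j 1| + |u i 1|) := by
          gcongr
          · rw [abs_le]; constructor <;> linarith
          · exact abs_sub _ _
      _ ≤ L + 2 * e := by linarith
  have h2 : |v M 1 - v i 1| ≤ 2 * e := by
    calc |v M 1 - v i 1| ≤ |v M 1| + |v i 1| := abs_sub _ _
      _ ≤ 2 * e := by linarith
  have h3 : |((M : ℝ) - i) + (u M 1 - u i 1)| ≤ N := by
    calc |((M : ℝ) - i) + (u M 1 - u i 1)| ≤ |(M : ℝ) - i| + |u M 1 - u i 1| := abs_add_le _ _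
      _ ≤ N / 2 + (|u M 1| + |u i 1|) := by
          gcongr
          · rw [abs_le]; constructor <;> linarith
          · exact abs_sub _ _
      _ ≤ N := by linarith
  have h4 : |(((j : ℝ) - i) + (u j 1 - u i 1)) * (v M 1 - v i 1) -
        (v j 1 - v i 1) * (((M : ℝ) - i) + (u M 1 - u i 1))| ≤
      (L + 2 * e) * (2 * e) + |v j 1 - v i 1| * N := by
    calc _ ≤ |(((j : ℝ) - i) + (u j 1 - u i 1)) * (v M 1 - v i 1)| +
        |(v j 1 - v i 1) * (((M : ℝ) - i) + (u M 1 - u i 1))| := abs_sub _ _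
      _ = |((j : ℝ) - i) + (u j 1 - u i 1)| * |v M 1 - v i 1| +
        |v j 1 - v i 1| * |((M : ℝ) - i) + (u M 1 - u i 1)| := by rw [abs_mul, abs_mul]
      _ ≤ (L + 2 * e) * (2 * e) + |v j 1 - v i 1| * N := by gcongr
  have h5 : (L + 2 * e) * (2 * e) ≤ e * (5 * L + 7) / 2 := by
    have : (L + 2 * e) * (2 * e) = e * (2 * L + 4 * e) := by ring
    rw [this, mul_div_assoc]
    gcongr
    linarith
  linarith

/-- the relation between rows `r` and `r + 1` -/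
theorem stepOne {u v : ℤ → ℤ → ℝ} {N e α : ℝ} {L : ℤ} (h : Bad u v N e α L)
    {i j r : ℤ} (hi : 0 ≤ i) (hi' : i ≤ L) (hj : 0 ≤ j) (hj' : j ≤ L)
    (hr : 0 ≤ r) (hr' : r ≤ 1) :
    |((j : ℝ) - i) * (v j (r + 1) - v i r) - (u j (r + 1) - u i r)| * N ≤ 12 * (L + 1) := by
  have h1 := upper h (p1 := i) (p2 := r) (b := j - i) (g := 1) hi hi' hr (by omega) le_rfl
    (by omega) (by omega)
  rw [show i + 1 * (j - i) = j by ring] at h1
  push_cast at h1
  have h2 : |(j : ℝ) - i| ≤ L := by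
    have a1 : (0 : ℝ) ≤ i := by exact_mod_cast hi
    have a2 : (i : ℝ) ≤ L := by exact_mod_cast hi'
    have a3 : (0 : ℝ) ≤ j := by exact_mod_cast hj
    have a4 : (j : ℝ) ≤ L := by exact_mod_cast hj'
    rw [abs_le]; constructor <;> linarith
  linarith

theorem mixed {u v : ℤ → ℤ → ℝ} {N e α : ℝ} {L : ℤ} (h : Bad u v N e α L)
    {i1 i2 j1 j2 r : ℤ} (hi1 : 0 ≤ i1) (hi1' : i1 ≤ L) (hi2 : 0 ≤ i2) (hi2' : i2 ≤ L)
    (hj1 : 0 ≤ j1) (hj1' : j1 ≤ L) (hj2 : 0 ≤ j2) (hj2' : j2 ≤ L)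
    (hr : 0 ≤ r) (hr' : r ≤ 1) :
    |((i2 : ℝ) - i1) * (v j1 (r + 1) - v j2 (r + 1)) + ((j2 : ℝ) - j1) * (v i1 r - v i2 r)| * N
      ≤ 48 * (L + 1) := by
  have hN : 0 ≤ N := by
    have h1 := h.hN
    have h2 : (2 : ℝ) ≤ L := by exact_mod_cast h.hL
    linarith
  have e11 := stepOne h hi1 hi1' hj1 hj1' hr hr'
  have e12 := stepOne h hi1 hi1' hj2 hj2' hr hr'
  have e21 := stepOne h hi2 hi2' hj1 hj1' hr hr'
  have e22 := stepOne h hi2 hi2' hj2 hj2' hr hr'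
  set E11 := ((j1 : ℝ) - i1) * (v j1 (r + 1) - v i1 r) - (u j1 (r + 1) - u i1 r) with hE11
  set E12 := ((j2 : ℝ) - i1) * (v j2 (r + 1) - v i1 r) - (u j2 (r + 1) - u i1 r) with hE12
  set E21 := ((j1 : ℝ) - i2) * (v j1 (r + 1) - v i2 r) - (u j1 (r + 1) - u i2 r) with hE21
  set E22 := ((j2 : ℝ) - i2) * (v j2 (r + 1) - v i2 r) - (u j2 (r + 1) - u i2 r) with hE22
  have hid : ((i2 : ℝ) - i1) * (v j1 (r + 1) - v j2 (r + 1)) +
      ((j2 : ℝ) - j1) * (v i1 r - v i2 r) = E11 - E12 - E21 + E22 := by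
    rw [hE11, hE12, hE21, hE22]; ring
  rw [hid]
  have htri : |E11 - E12 - E21 + E22| ≤ |E11| + |E12| + |E21| + |E22| := by
    calc |E11 - E12 - E21 + E22| ≤ |E11 - E12 - E21| + |E22| := abs_add_le _ _
      _ ≤ |E11 - E12| + |E21| + |E22| := by gcongr; exact abs_sub _ _
      _ ≤ |E11| + |E12| + |E21| + |E22| := by gcongr; exact abs_sub _ _
  calc |E11 - E12 - E21 + E22| * N ≤ (|E11| + |E12| + |E21| + |E22|) * N := by gcongr
    _ = |E11| * N + |E12| * N + |E21| * N + |E22| * N := by ring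
    _ ≤ 48 * (L + 1) := by linarith

/-- the heights in the row `1` are bounded -/
theorem bounded {u v : ℤ → ℤ → ℝ} {N e α : ℝ} {L l : ℤ} (h : Bad u v N e α L) (hl : L = 2 * l)
    {j : ℤ} (hj : 0 ≤ j) (hj' : j ≤ L) : |v j 1 - v 0 1| * N ≤ 180 := by
  have hL := h.hL
  have hl1 : 1 ≤ l := by omega
  have hLr : (2 : ℝ) ≤ L := by exact_mod_cast hL
  have hl1r : (1 : ℝ) ≤ l := by exact_mod_cast hl1
  have hLl : (L : ℝ) = 2 * l := by exact_mod_cast hl
  have hN : 0 ≤ N := by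
    have h1 := h.hN
    linarith
  have h01 := mixed h (i1 := 0) (i2 := L) (j1 := 0) (j2 := L) (r := 0) le_rfl (by omega)
    (by omega) le_rfl le_rfl (by omega) (by omega) le_rfl le_rfl (by norm_num)
  have h12 := mixed h (i1 := 0) (i2 := L) (j1 := 0) (j2 := L) (r := 1) le_rfl (by omega)
    (by omega) le_rfl le_rfl (by omega) (by omega) le_rfl (by norm_num) le_rfl
  have h0j := mixed h (i1 := 0) (i2 := L) (j1 := 0) (j2 := j) (r := 0) le_rfl (by omega)
    (by omega) le_rfl le_rfl (by omega) hj hj' le_rfl (by norm_num)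
  have b00 := upper h (p1 := 0) (p2 := 0) (b := 0) (g := 2) le_rfl (by omega) le_rfl
    (by norm_num) (by norm_num) (by norm_num) (by omega)
  have b0L := upper h (p1 := 0) (p2 := 0) (b := l) (g := 2) le_rfl (by omega) le_rfl
    (by norm_num) (by norm_num) (by omega) (by omega)
  have bL0 := upper h (p1 := L) (p2 := 0) (b := -l) (g := 2) (by omega) le_rfl le_rfl
    (by norm_num) (by norm_num) (by omega) (by omega)
  have bLL := upper h (p1 := L) (p2 := 0) (b := 0) (g := 2) (by omega) le_rfl le_rfl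
    (by norm_num) (by norm_num) (by omega) (by omega)
  rw [show (0 : ℤ) + 2 * 0 = 0 by norm_num, show (0 : ℤ) + 2 = 2 by norm_num] at b00
  rw [show (0 : ℤ) + 2 * l = L by omega, show (0 : ℤ) + 2 = 2 by norm_num] at b0L
  rw [show L + 2 * (-l) = 0 by omega, show (0 : ℤ) + 2 = 2 by norm_num] at bL0
  rw [show L + 2 * 0 = L by omega, show (0 : ℤ) + 2 = 2 by norm_num] at bLL
  rw [show (0 : ℤ) + 1 = 1 by norm_num] at h01 h0j
  rw [show (1 : ℤ) + 1 = 2 by norm_num] at h12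
  push_cast at b00 b0L bL0 bLL h01 h12 h0j
  rw [abs_neg] at bL0
  have hlabs : |(l : ℝ)| = l := abs_of_nonneg (by linarith)
  rw [hlabs] at b0L bL0
  rw [abs_zero] at b00 bLL
  set A0 : ℝ := v 0 0 - v L 0 with hA0
  set A1 : ℝ := v 0 1 - v L 1 with hA1
  set A2 : ℝ := v 0 2 - v L 2 with hA2
  -- row 0 - row 2
  have h02 : |A2 + A0| * N ≤ 72 := by
    set E00 := (0 : ℝ) * (v 0 2 - v 0 0) - (u 0 2 - u 0 0) with hE00
    set E0L := (l : ℝ) * (v L 2 - v 0 0) - (u L 2 - u 0 0) with hE0L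
    set EL0 := -(l : ℝ) * (v 0 2 - v L 0) - (u 0 2 - u L 0) with hEL0
    set ELL := (0 : ℝ) * (v L 2 - v L 0) - (u L 2 - u L 0) with hELL
    have hid : (l : ℝ) * (A2 + A0) = E00 - E0L - EL0 + ELL := by
      rw [hE00, hE0L, hEL0, hELL, hA2, hA0]; ring
    have htri : |E00 - E0L - EL0 + ELL| ≤ |E00| + |E0L| + |EL0| + |ELL| := by
      calc |E00 - E0L - EL0 + ELL| ≤ |E00 - E0L - EL0| + |ELL| := abs_add_le _ _
        _ ≤ |E00 - E0L| + |EL0| + |ELL| := by gcongr; exact abs_sub _ _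
        _ ≤ |E00| + |E0L| + |EL0| + |ELL| := by gcongr; exact abs_sub _ _
    have h1 : (l : ℝ) * (|A2 + A0| * N) ≤ 24 * l + 48 := by
      calc (l : ℝ) * (|A2 + A0| * N) = |(l : ℝ) * (A2 + A0)| * N := by
            rw [abs_mul, hlabs]; ring
        _ = |E00 - E0L - EL0 + ELL| * N := by rw [hid]
        _ ≤ (|E00| + |E0L| + |EL0| + |ELL|) * N := by gcongr
        _ = |E00| * N + |E0L| * N + |EL0| * N + |ELL| * N := by ring
        _ ≤ 24 * l + 48 := by linarith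
    by_contra h2
    push Not at h2
    have h3 : (l : ℝ) * 72 < l * (|A2 + A0| * N) := by gcongr
    linarith
  have key : ∀ x : ℝ, |(L : ℝ) * x| * N ≤ 48 * (L + 1) → |x| * N ≤ 72 := by
    intro x hx
    rw [abs_mul, abs_of_nonneg (by linarith : (0 : ℝ) ≤ L)] at hx
    by_contra h2
    push Not at h2
    have h3 : (L : ℝ) * 72 < L * (|x| * N) := by gcongr
    nlinarith
  have h01' : |A1 + A0| * N ≤ 72 := by
    apply key
    have : (L : ℝ) * (A1 + A0) = ((L : ℝ) - 0) * A1 + ((L : ℝ) - 0) * A0 := by ring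
    rw [this]; exact h01
  have h12' : |A2 + A1| * N ≤ 72 := by
    apply key
    have : (L : ℝ) * (A2 + A1) = ((L : ℝ) - 0) * A2 + ((L : ℝ) - 0) * A1 := by ring
    rw [this]; exact h12
  have hA0N : |A0| * N ≤ 108 := by
    have h1 : 2 * A0 = (A1 + A0) - (A2 + A1) + (A2 + A0) := by ring
    have h2 : 2 * |A0| ≤ |A1 + A0| + |A2 + A1| + |A2 + A0| := by
      calc 2 * |A0| = |2 * A0| := by rw [abs_mul, abs_two]
        _ = |(A1 + A0) - (A2 + A1) + (A2 + A0)| := by rw [h1]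
        _ ≤ |(A1 + A0) - (A2 + A1)| + |A2 + A0| := abs_add_le _ _
        _ ≤ |A1 + A0| + |A2 + A1| + |A2 + A0| := by gcongr; exact abs_sub _ _
    have h3 : 2 * |A0| * N ≤ (|A1 + A0| + |A2 + A1| + |A2 + A0|) * N := by gcongr
    linarith
  -- final
  have hjr : (0 : ℝ) ≤ j := by exact_mod_cast hj
  have hjr' : (j : ℝ) ≤ L := by exact_mod_cast hj'
  have h5 : (L : ℝ) * (|v j 1 - v 0 1| * N) ≤ 48 * (L + 1) + L * 108 := by
    have h6 : (L : ℝ) * (v 0 1 - v j 1) =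
        (((L : ℝ) - 0) * (v 0 1 - v j 1) + ((j : ℝ) - 0) * A0) - (j : ℝ) * A0 := by ring
    have h7 : (L : ℝ) * (|v j 1 - v 0 1| * N) = |(L : ℝ) * (v 0 1 - v j 1)| * N := by
      rw [abs_mul, abs_of_nonneg (by linarith : (0 : ℝ) ≤ L), abs_sub_comm (v j 1)]; ring
    have h8 : |(j : ℝ) * A0| * N ≤ L * 108 := by
      rw [abs_mul, abs_of_nonneg hjr, mul_assoc]
      gcongr
    rw [h7, h6]
    calc _ ≤ (|((L : ℝ) - 0) * (v 0 1 - v j 1) + ((j : ℝ) - 0) * A0| + |(j : ℝ) * A0|) * N := by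
            gcongr; exact abs_sub _ _
      _ = |((L : ℝ) - 0) * (v 0 1 - v j 1) + ((j : ℝ) - 0) * A0| * N + |(j : ℝ) * A0| * N := by
            ring
      _ ≤ 48 * (L + 1) + L * 108 := by gcongr
  by_contra h2
  push Not at h2
  have h3 : (L : ℝ) * 180 < L * (|v j 1 - v 0 1| * N) := by gcongr
  nlinarith

/-- pigeonhole: the standing assumptions force `L α ≤ 720` -/
theorem pigeon {u v : ℤ → ℤ → ℝ} {N e α : ℝ} {L l : ℤ} (h : Bad u v N e α L) (hl : L = 2 * l)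
    (hα : 0 < α) : (L : ℝ) * α ≤ 720 := by
  by_contra hcon
  push Not at hcon
  have hL := h.hL
  have hN : 0 < N := by
    have h1 := h.hN
    have h2 : (2 : ℝ) ≤ L := by exact_mod_cast h.hL
    linarith
  set f : ℤ → ℤ := fun j => ⌊((v j 1 - v 0 1) * N + 180) / (α / 2)⌋ with hf
  have hmaps : ∀ j ∈ Finset.Icc (0 : ℤ) L, f j ∈ Finset.Ico (0 : ℤ) L := by
    intro j hj
    rw [Finset.mem_Icc] at hj
    have hb := bounded h hl hj.1 hj.2
    have hb2 : |(v j 1 - v 0 1) * N| ≤ 180 := by rw [abs_mul, abs_of_pos hN]; exact hb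
    rw [abs_le] at hb2
    rw [Finset.mem_Ico]
    constructor
    · apply Int.floor_nonneg.2
      apply div_nonneg <;> linarith
    · apply Int.floor_lt.2
      rw [div_lt_iff₀ (by linarith)]
      linarith
  obtain ⟨i, hi, j, hj, hij, hfij⟩ := Finset.exists_ne_map_eq_of_card_lt_of_maps_to
    (by rw [Int.card_Icc, Int.card_Ico]; omega) hmaps
  rw [Finset.mem_Icc] at hi hj
  have hlow := lower h hi.1 hi.2 hj.1 hj.2 hij
  have h1 := Int.abs_sub_lt_one_of_floor_eq_floor hfij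
  rw [← sub_div, abs_div, abs_of_pos (by linarith : 0 < α / 2), div_lt_one (by linarith)] at h1
  have h2 : (v i 1 - v 0 1) * N + 180 - ((v j 1 - v 0 1) * N + 180) = -((v j 1 - v i 1) * N) := by
    ring
  rw [h2, abs_neg, abs_mul, abs_of_pos hN] at h1
  linarith

end Pool.Agent.Grain
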