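import Mathlib
import Pool.Agent.Grain.Core

/-!
# Perturbed lattices: from determinants to angles
-/

set_option autoImplicit false

namespace Pool.Agent.Grain

open EuclideanGeometry

/-- the Euclidean plane -/
abbrev Pl : Type := EuclideanSpace ℝ (Fin 2)

/-- the determinant of two vectors -/
def cr (x y : Pl) : ℝ := x 0 * y 1 - x 1 * y 0

theorem norm_sq_pl (x : Pl) : ‖x‖ ^ 2 = x 0 ^ 2 + x 1 ^ 2 := by
  rw [EuclideanSpace.norm_sq_eq, Fin.sum_univ_two, Real.norm_eq_abs, Real.norm_eq_abs, sq_abs,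
    sq_abs]

theorem inner_pl (x y : Pl) : inner ℝ x y = x 0 * y 0 + x 1 * y 1 := by
  rw [PiLp.inner_apply, Fin.sum_univ_two]
  simp [mul_comm]

theorem lagrange (x y : Pl) : (inner ℝ x y) ^ 2 + cr x y ^ 2 = (‖x‖ * ‖y‖) ^ 2 := by
  rw [mul_pow, norm_sq_pl, norm_sq_pl, inner_pl, cr]
  ring

theorem abs_cr_le (x y : Pl) : |cr x y| ≤ ‖x‖ * ‖y‖ := by
  apply abs_le_of_sq_le_sq _ (by positivity)
  have := lagrange x y
  nlinarith [sq_nonneg (inner ℝ x y)]

/-- an acute angle is at most `π/2` times the determinant over the product of the lengths -/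
theorem angle_le {x y : Pl} (h : 0 ≤ inner ℝ x y) (hx : 0 < ‖x‖) (hy : 0 < ‖y‖) :
    InnerProductGeometry.angle x y * (‖x‖ * ‖y‖) ≤ Real.pi / 2 * |cr x y| := by
  set t := InnerProductGeometry.angle x y with ht
  have hxy : 0 < ‖x‖ * ‖y‖ := mul_pos hx hy
  have ht0 : 0 ≤ t := InnerProductGeometry.angle_nonneg _ _
  have ht1 : t ≤ Real.pi / 2 := by
    rw [ht, InnerProductGeometry.angle, Real.arccos_le_pi_div_two]
    exact div_nonneg h hxy.le
  have hcos : Real.cos t * (‖x‖ * ‖y‖) = inner ℝ x y :=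
    InnerProductGeometry.cos_angle_mul_norm_mul_norm x y
  have hsin0 : 0 ≤ Real.sin t := InnerProductGeometry.sin_angle_nonneg _ _
  have hsin : Real.sin t * (‖x‖ * ‖y‖) = |cr x y| := by
    have h1 : (Real.sin t * (‖x‖ * ‖y‖)) ^ 2 = |cr x y| ^ 2 := by
      have h2 := lagrange x y
      have h3 := Real.sin_sq_add_cos_sq t
      rw [sq_abs, mul_pow]
      rw [← hcos, mul_pow] at h2
      nlinarith
    exact (pow_left_inj₀ (by positivity) (abs_nonneg _) two_ne_zero).1 h1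
  have hj : 2 / Real.pi * t ≤ Real.sin t := Real.mul_le_sin ht0 ht1
  have hj' : t ≤ Real.pi / 2 * Real.sin t := by
    have hpi := Real.pi_pos
    calc t = Real.pi / 2 * (2 / Real.pi * t) := by field_simp
      _ ≤ Real.pi / 2 * Real.sin t := by gcongr
  calc t * (‖x‖ * ‖y‖) ≤ (Real.pi / 2 * Real.sin t) * (‖x‖ * ‖y‖) := by gcongr
    _ = Real.pi / 2 * (Real.sin t * (‖x‖ * ‖y‖)) := by ring
    _ = Real.pi / 2 * |cr x y| := by rw [hsin]

end Pool.Agent.Grain
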