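import Mathlib
import Pool.Agent.Grain.Geo

/-!
# Perturbed lattices: the main estimate
-/

set_option autoImplicit false

namespace Pool.Agent.Grain

theorem cramer (e₁ e₂ w : Pl) (h : cr e₁ e₂ ≠ 0) :
    w = (cr w e₂ / cr e₁ e₂) • e₁ + (cr e₁ w / cr e₁ e₂) • e₂ := by
  have h0 : ∀ i : Fin 2, w i = (cr w e₂ / cr e₁ e₂) * e₁ i + (cr e₁ w / cr e₁ e₂) * e₂ i := by
    intro i
    have h1 : (cr w e₂ / cr e₁ e₂) * e₁ i + (cr e₁ w / cr e₁ e₂) * e₂ i =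
        (cr w e₂ * e₁ i + cr e₁ w * e₂ i) / cr e₁ e₂ := by ring
    rw [h1, eq_div_iff h]
    clear h1
    revert i
    rw [Fin.forall_fin_two]
    constructor <;> simp only [cr] <;> ring
  ext i
  simp only [PiLp.add_apply, PiLp.smul_apply, smul_eq_mul]
  exact h0 i

theorem cr_comb (e₁ e₂ : Pl) (A B C D : ℝ) :
    cr (A • e₁ + B • e₂) (C • e₁ + D • e₂) = (A * D - B * C) * cr e₁ e₂ := by
  simp only [cr, PiLp.add_apply, PiLp.smul_apply, smul_eq_mul]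
  ring

theorem norm_ge_left (e₁ e₂ : Pl) (C D : ℝ) :
    |C| * |cr e₁ e₂| ≤ ‖C • e₁ + D • e₂‖ * ‖e₂‖ := by
  have h := abs_cr_le (C • e₁ + D • e₂) e₂
  have h2 : cr (C • e₁ + D • e₂) e₂ = C * cr e₁ e₂ := by
    simp only [cr, PiLp.add_apply, PiLp.smul_apply, smul_eq_mul]
    ring
  rwa [h2, abs_mul] at h

theorem norm_ge_right (e₁ e₂ : Pl) (C D : ℝ) :
    |D| * |cr e₁ e₂| ≤ ‖C • e₁ + D • e₂‖ * ‖e₁‖ := by
  have h := abs_cr_le e₁ (C • e₁ + D • e₂)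
  have h2 : cr e₁ (C • e₁ + D • e₂) = D * cr e₁ e₂ := by
    simp only [cr, PiLp.add_apply, PiLp.smul_apply, smul_eq_mul]
    ring
  rw [h2, abs_mul] at h
  linarith

/-- `X` contains a grain: a piece of size `r` of a lattice, spanned by vectors of length at most
`K / √n` and of covolume at least `κ / n`, all of whose points are within `ε / √n` of a point of
`X` -/
def HasGrain {n : ℕ} (X : Fin n → Pl) (κ K r ε : ℝ) : Prop :=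
  ∃ z e₁ e₂ : Pl, ‖e₁‖ ≤ K / √n ∧ ‖e₂‖ ≤ K / √n ∧ κ / n ≤ |cr e₁ e₂| ∧
    ∀ a b : ℤ, |(a : ℝ)| ≤ r * √n → |(b : ℝ)| ≤ r * √n →
      ∃ i, dist (X i) (z + (a : ℝ) • e₁ + (b : ℝ) • e₂) ≤ ε / √n

/-- a frame: the points of the grain in the coordinates of the lattice -/
structure Frame {n : ℕ} (X : Fin n → Pl) (e₁ e₂ : Pl) (N e : ℝ) (ψ : ℤ → ℤ → Fin n)
    (u v : ℤ → ℤ → ℝ) : Prop where
  hu : ∀ a b : ℤ, |(a : ℝ)| ≤ N → |(b : ℝ)| ≤ N → |u a b| ≤ e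
  hv : ∀ a b : ℤ, |(a : ℝ)| ≤ N → |(b : ℝ)| ≤ N → |v a b| ≤ e
  hX : ∀ a b c d : ℤ, X (ψ c d) - X (ψ a b) =
    (((c : ℝ) + u c d) - (a + u a b)) • e₁ + (((d : ℝ) + v c d) - (b + v a b)) • e₂

theorem exists_frame {n : ℕ} (hn : 1 ≤ n) {X : Fin n → Pl} {κ K r ε : ℝ} (hκ : 0 < κ)
    (hK : 0 < K) (hr : 0 < r) (hε : 0 < ε) (h : HasGrain X κ K r ε) :
    ∃ (e₁ e₂ : Pl) (ψ : ℤ → ℤ → Fin n) (u v : ℤ → ℤ → ℝ),
      ‖e₁‖ ≤ K / √n ∧ ‖e₂‖ ≤ K / √n ∧ κ / n ≤ |cr e₁ e₂| ∧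
      Frame X e₁ e₂ (r * √n) (ε * K / κ) ψ u v := by
  obtain ⟨z, e₁, e₂, h1, h2, h3, h4⟩ := h
  have hnr : (1 : ℝ) ≤ n := by exact_mod_cast hn
  have hn0 : (0 : ℝ) < n := by linarith
  have hsq : 0 < √(n : ℝ) := Real.sqrt_pos.2 hn0
  have hsqsq : √(n : ℝ) * √(n : ℝ) = n := Real.mul_self_sqrt hn0.le
  obtain ⟨i0, -⟩ := h4 0 0 (by simp; positivity) (by simp; positivity)
  have h5 : ∀ a b : ℤ, ∃ i : Fin n, |(a : ℝ)| ≤ r * √n → |(b : ℝ)| ≤ r * √n →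
      dist (X i) (z + (a : ℝ) • e₁ + (b : ℝ) • e₂) ≤ ε / √n := by
    intro a b
    by_cases ha : |(a : ℝ)| ≤ r * √n
    · by_cases hb : |(b : ℝ)| ≤ r * √n
      · obtain ⟨i, hi⟩ := h4 a b ha hb
        exact ⟨i, fun _ _ => hi⟩
      · exact ⟨i0, fun _ h => absurd h hb⟩
    · exact ⟨i0, fun h _ => absurd h ha⟩
  choose ψ hψ using h5
  have hΔpos : 0 < |cr e₁ e₂| := lt_of_lt_of_le (by positivity) h3
  have hΔ : cr e₁ e₂ ≠ 0 := abs_pos.1 hΔpos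
  set W : ℤ → ℤ → Pl := fun a b => X (ψ a b) - (z + (a : ℝ) • e₁ + (b : ℝ) • e₂) with hW
  have hWn : ∀ a b : ℤ, |(a : ℝ)| ≤ r * √n → |(b : ℝ)| ≤ r * √n → ‖W a b‖ ≤ ε / √n := by
    intro a b ha hb
    have := hψ a b ha hb
    rwa [dist_eq_norm] at this
  have hprod : ∀ w g : Pl, ‖w‖ ≤ ε / √n → ‖g‖ ≤ K / √n → ‖w‖ * ‖g‖ / |cr e₁ e₂| ≤ ε * K / κ := by
    intro w g hw hg
    rw [div_le_div_iff₀ hΔpos hκ]
    calc ‖w‖ * ‖g‖ * κ ≤ (ε / √n) * (K / √n) * κ := by gcongr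
      _ = ε * K * κ / (√n * √n) := by ring
      _ = ε * K * (κ / n) := by rw [hsqsq]; ring
      _ ≤ ε * K * |cr e₁ e₂| := by gcongr
  refine ⟨e₁, e₂, ψ, fun a b => cr (W a b) e₂ / cr e₁ e₂, fun a b => cr e₁ (W a b) / cr e₁ e₂,
    h1, h2, h3, ⟨?_, ?_, ?_⟩⟩
  · intro a b ha hb
    rw [abs_div]
    calc |cr (W a b) e₂| / |cr e₁ e₂| ≤ ‖W a b‖ * ‖e₂‖ / |cr e₁ e₂| := by
          gcongr; exact abs_cr_le _ _
      _ ≤ ε * K / κ := hprod _ _ (hWn a b ha hb) h2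
  · intro a b ha hb
    rw [abs_div]
    calc |cr e₁ (W a b)| / |cr e₁ e₂| ≤ ‖W a b‖ * ‖e₁‖ / |cr e₁ e₂| := by
          gcongr
          rw [mul_comm]; exact abs_cr_le _ _
      _ ≤ ε * K / κ := hprod _ _ (hWn a b ha hb) h1
  · intro a b c d
    have h6 : ∀ a b : ℤ, X (ψ a b) = z + ((a : ℝ) + cr (W a b) e₂ / cr e₁ e₂) • e₁ +
        ((b : ℝ) + cr e₁ (W a b) / cr e₁ e₂) • e₂ := by
      intro a b
      have h7 := cramer e₁ e₂ (W a b) hΔ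
      have h8 : X (ψ a b) = (z + (a : ℝ) • e₁ + (b : ℝ) • e₂) + W a b := by
        simp only [hW]; abel
      rw [h8]
      conv_lhs => rw [h7]
      rw [add_smul, add_smul]
      abel
    rw [h6 a b, h6 c d, sub_smul, sub_smul]
    abel

theorem Frame.norm_ge {n : ℕ} {X : Fin n → Pl} {e₁ e₂ : Pl} {N e K : ℝ} {ψ : ℤ → ℤ → Fin n}
    {u v : ℤ → ℤ → ℝ} (hf : Frame X e₁ e₂ N e ψ u v) (h1 : ‖e₁‖ ≤ K / √n) (h2 : ‖e₂‖ ≤ K / √n)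
    {p1 p2 m1 m2 : ℤ} (hp1 : |(p1 : ℝ)| ≤ N) (hp2 : |(p2 : ℝ)| ≤ N) (hm1 : |(m1 : ℝ)| ≤ N)
    (hm2 : |(m2 : ℝ)| ≤ N) {t : ℝ} (ht : t ≤ |(m1 : ℝ) - p1| ∨ t ≤ |(m2 : ℝ) - p2|) :
    (t - 2 * e) * |cr e₁ e₂| ≤ ‖X (ψ m1 m2) - X (ψ p1 p2)‖ * (K / √n) := by
  have hup := hf.hu p1 p2 hp1 hp2
  have hvp := hf.hv p1 p2 hp1 hp2
  have hum := hf.hu m1 m2 hm1 hm2
  have hvm := hf.hv m1 m2 hm1 hm2
  have hX := hf.hX p1 p2 m1 m2
  rcases ht with ht | ht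
  · have h3 := norm_ge_left e₁ e₂ (((m1 : ℝ) + u m1 m2) - (p1 + u p1 p2))
      (((m2 : ℝ) + v m1 m2) - (p2 + v p1 p2))
    rw [← hX] at h3
    have h4 : t - 2 * e ≤ |((m1 : ℝ) + u m1 m2) - (p1 + u p1 p2)| := by
      have h5 : |(m1 : ℝ) - p1| ≤ |((m1 : ℝ) + u m1 m2) - (p1 + u p1 p2)| +
          (|u m1 m2| + |u p1 p2|) := by
        calc |(m1 : ℝ) - p1| = |(((m1 : ℝ) + u m1 m2) - (p1 + u p1 p2)) -
              (u m1 m2 - u p1 p2)| := by congr 1; ring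
          _ ≤ |((m1 : ℝ) + u m1 m2) - (p1 + u p1 p2)| + |u m1 m2 - u p1 p2| := abs_sub _ _
          _ ≤ _ := by gcongr; exact abs_sub _ _
      linarith
    calc (t - 2 * e) * |cr e₁ e₂| ≤
        |((m1 : ℝ) + u m1 m2) - (p1 + u p1 p2)| * |cr e₁ e₂| := by gcongr
      _ ≤ ‖X (ψ m1 m2) - X (ψ p1 p2)‖ * ‖e₂‖ := h3
      _ ≤ ‖X (ψ m1 m2) - X (ψ p1 p2)‖ * (K / √n) := by gcongr
  · have h3 := norm_ge_right e₁ e₂ (((m1 : ℝ) + u m1 m2) - (p1 + u p1 p2))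
      (((m2 : ℝ) + v m1 m2) - (p2 + v p1 p2))
    rw [← hX] at h3
    have h4 : t - 2 * e ≤ |((m2 : ℝ) + v m1 m2) - (p2 + v p1 p2)| := by
      have h5 : |(m2 : ℝ) - p2| ≤ |((m2 : ℝ) + v m1 m2) - (p2 + v p1 p2)| +
          (|v m1 m2| + |v p1 p2|) := by
        calc |(m2 : ℝ) - p2| = |(((m2 : ℝ) + v m1 m2) - (p2 + v p1 p2)) -
              (v m1 m2 - v p1 p2)| := by congr 1; ring
          _ ≤ |((m2 : ℝ) + v m1 m2) - (p2 + v p1 p2)| + |v m1 m2 - v p1 p2| := abs_sub _ _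
          _ ≤ _ := by gcongr; exact abs_sub _ _
      linarith
    calc (t - 2 * e) * |cr e₁ e₂| ≤
        |((m2 : ℝ) + v m1 m2) - (p2 + v p1 p2)| * |cr e₁ e₂| := by gcongr
      _ ≤ ‖X (ψ m1 m2) - X (ψ p1 p2)‖ * ‖e₁‖ := h3
      _ ≤ ‖X (ψ m1 m2) - X (ψ p1 p2)‖ * (K / √n) := by gcongr

/-- different points of the grain give different points of the configuration -/
theorem Frame.ne {n : ℕ} {X : Fin n → Pl} {e₁ e₂ : Pl} {N e K : ℝ} {ψ : ℤ → ℤ → Fin n}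
    {u v : ℤ → ℤ → ℝ} (hf : Frame X e₁ e₂ N e ψ u v) (h1 : ‖e₁‖ ≤ K / √n) (h2 : ‖e₂‖ ≤ K / √n)
    (hΔ : 0 < |cr e₁ e₂|) (he : e ≤ 1 / 4)
    {p1 p2 m1 m2 : ℤ} (hp1 : |(p1 : ℝ)| ≤ N) (hp2 : |(p2 : ℝ)| ≤ N) (hm1 : |(m1 : ℝ)| ≤ N)
    (hm2 : |(m2 : ℝ)| ≤ N) (hne : p1 ≠ m1 ∨ p2 ≠ m2) : ψ p1 p2 ≠ ψ m1 m2 := by
  intro heq
  have h3 : (1 : ℝ) ≤ |(m1 : ℝ) - p1| ∨ (1 : ℝ) ≤ |(m2 : ℝ) - p2| := by
    rcases hne with h | h
    · left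
      have : (1 : ℤ) ≤ |m1 - p1| := Int.one_le_abs (sub_ne_zero.2 h.symm)
      exact_mod_cast this
    · right
      have : (1 : ℤ) ≤ |m2 - p2| := Int.one_le_abs (sub_ne_zero.2 h.symm)
      exact_mod_cast this
  have h4 := hf.norm_ge h1 h2 hp1 hp2 hm1 hm2 h3
  rw [heq, sub_self, norm_zero, zero_mul] at h4
  have h5 : (0 : ℝ) < (1 - 2 * e) * |cr e₁ e₂| := by
    apply mul_pos _ hΔ
    linarith
  linarith

/-- large angles forbid small determinants -/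
theorem bad_of_angles {n : ℕ} (hn : 1 ≤ n) {X : Fin n → Pl} {e₁ e₂ : Pl} {N e α K κ A : ℝ}
    {ψ : ℤ → ℤ → Fin n} {u v : ℤ → ℤ → ℝ} {L : ℤ} (hf : Frame X e₁ e₂ N e ψ u v)
    (hκ : 0 < κ) (hK : 0 < K)
    (h1 : ‖e₁‖ ≤ K / √n) (h2 : ‖e₂‖ ≤ K / √n) (h3 : κ / n ≤ |cr e₁ e₂|)
    (hL : 2 ≤ L) (hN : 100 * (L : ℝ) ≤ N) (hN2 : 20 * K ^ 2 * (L + 3) ≤ κ * N) (he : 0 < e)
    (he2 : e * (5 * L + 7) ≤ α) (hα : α ≤ 1 / 8)
    (hA0 : 0 ≤ A)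
    (hA : ∀ i j k : Fin n, i ≠ j → j ≠ k → i ≠ k → A ≤ EuclideanGeometry.angle (X i) (X j) (X k))
    (hAα : α * (200 * Real.pi * K ^ 2) < A * (κ * N ^ 2)) : Bad u v N e α L := by
  have hLr : (2 : ℝ) ≤ L := by exact_mod_cast hL
  have he136 : e ≤ 1 / 136 := by
    have h4 : e * 17 ≤ e * (5 * L + 7) := by gcongr; linarith
    linarith
  have hnr : (1 : ℝ) ≤ n := by exact_mod_cast hn
  have hn0 : (0 : ℝ) < n := by linarith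
  have hsq : 0 < √(n : ℝ) := Real.sqrt_pos.2 hn0
  have hsqsq : √(n : ℝ) * √(n : ℝ) = n := Real.mul_self_sqrt hn0.le
  have hΔ : 0 < |cr e₁ e₂| := lt_of_lt_of_le (by positivity) h3
  have hKs : 0 < K / √(n : ℝ) := by positivity
  refine ⟨hL, by linarith, he, he2, hα, hf.hu, hf.hv, ?_⟩
  intro p1 p2 q1 q2 m1 m2 hp1 hp1' hp2 hp2' hq1 hq1' hq2 hq2' hne hm1 hm2 hfar
  have ap1 : (0 : ℝ) ≤ p1 := by exact_mod_cast hp1
  have ap1' : (p1 : ℝ) ≤ L := by exact_mod_cast hp1'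
  have ap2 : (0 : ℝ) ≤ p2 := by exact_mod_cast hp2
  have ap2' : (p2 : ℝ) ≤ 2 := by exact_mod_cast hp2'
  have aq1 : (0 : ℝ) ≤ q1 := by exact_mod_cast hq1
  have aq1' : (q1 : ℝ) ≤ L := by exact_mod_cast hq1'
  have aq2 : (0 : ℝ) ≤ q2 := by exact_mod_cast hq2
  have aq2' : (q2 : ℝ) ≤ 2 := by exact_mod_cast hq2'
  have bp1 : |(p1 : ℝ)| ≤ N := by rw [abs_le]; constructor <;> linarith
  have bp2 : |(p2 : ℝ)| ≤ N := by rw [abs_le]; constructor <;> linarith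
  have bq1 : |(q1 : ℝ)| ≤ N := by rw [abs_le]; constructor <;> linarith
  have bq2 : |(q2 : ℝ)| ≤ N := by rw [abs_le]; constructor <;> linarith
  have hpq1 : |(q1 : ℝ) - p1| ≤ L := by rw [abs_le]; constructor <;> linarith
  have hpq2 : |(q2 : ℝ) - p2| ≤ 2 := by rw [abs_le]; constructor <;> linarith
  have hfarq : N / 16 - L ≤ |(m1 : ℝ) - q1| ∨ N / 16 - L ≤ |(m2 : ℝ) - q2| := by
    rcases hfar with h | h
    · left
      have h4 : |(m1 : ℝ) - p1| ≤ |(m1 : ℝ) - q1| + |(q1 : ℝ) - p1| := by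
        calc |(m1 : ℝ) - p1| = |((m1 : ℝ) - q1) + (q1 - p1)| := by congr 1; ring
          _ ≤ _ := abs_add_le _ _
      linarith
    · right
      have h4 : |(m2 : ℝ) - p2| ≤ |(m2 : ℝ) - q2| + |(q2 : ℝ) - p2| := by
        calc |(m2 : ℝ) - p2| = |((m2 : ℝ) - q2) + (q2 - p2)| := by congr 1; ring
          _ ≤ _ := abs_add_le _ _
      linarith
  have hpn := hf.norm_ge h1 h2 bp1 bp2 hm1 hm2 hfar
  have hqn := hf.norm_ge h1 h2 bq1 bq2 hm1 hm2 hfarq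
  set a : Pl := X (ψ p1 p2) - X (ψ m1 m2) with ha
  set b : Pl := X (ψ q1 q2) - X (ψ m1 m2) with hb
  rw [norm_sub_rev, ← ha] at hpn
  rw [norm_sub_rev, ← hb] at hqn
  have hpn' : N / 20 * |cr e₁ e₂| ≤ ‖a‖ * (K / √n) := by
    refine le_trans ?_ hpn
    gcongr
    linarith
  have hqn' : N / 20 * |cr e₁ e₂| ≤ ‖b‖ * (K / √n) := by
    refine le_trans ?_ hqn
    gcongr
    linarith
  have hN0 : 0 < N := by linarith
  have hapos : 0 < ‖a‖ := by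
    by_contra h
    have : ‖a‖ = 0 := le_antisymm (not_lt.1 h) (norm_nonneg _)
    rw [this, zero_mul] at hpn'
    have : 0 < N / 20 * |cr e₁ e₂| := by positivity
    linarith
  have hbpos : 0 < ‖b‖ := by
    by_contra h
    have : ‖b‖ = 0 := le_antisymm (not_lt.1 h) (norm_nonneg _)
    rw [this, zero_mul] at hqn'
    have : 0 < N / 20 * |cr e₁ e₂| := by positivity
    linarith
  -- distinct indices
  have hψpq : ψ p1 p2 ≠ ψ q1 q2 := hf.ne h1 h2 hΔ (by linarith) bp1 bp2 bq1 bq2 hne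
  have hψpm : ψ p1 p2 ≠ ψ m1 m2 := by
    intro h
    rw [ha, h, sub_self, norm_zero] at hapos
    exact lt_irrefl _ hapos
  have hψqm : ψ q1 q2 ≠ ψ m1 m2 := by
    intro h
    rw [hb, h, sub_self, norm_zero] at hbpos
    exact lt_irrefl _ hbpos
  have hang := hA (ψ p1 p2) (ψ m1 m2) (ψ q1 q2) hψpm hψqm.symm hψpq
  have hang' : A ≤ InnerProductGeometry.angle a b := hang
  -- the pair is close
  have hup := hf.hu p1 p2 bp1 bp2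
  have hvp := hf.hv p1 p2 bp1 bp2
  have huq := hf.hu q1 q2 bq1 bq2
  have hvq := hf.hv q1 q2 bq1 bq2
  have hw : ‖X (ψ q1 q2) - X (ψ p1 p2)‖ ≤ (L + 3) * (K / √n) := by
    rw [hf.hX p1 p2 q1 q2]
    have h4 : |((q1 : ℝ) + u q1 q2) - (p1 + u p1 p2)| ≤ L + 2 * e := by
      calc |((q1 : ℝ) + u q1 q2) - (p1 + u p1 p2)| = |((q1 : ℝ) - p1) + (u q1 q2 - u p1 p2)| := by
            congr 1; ring
        _ ≤ |(q1 : ℝ) - p1| + |u q1 q2 - u p1 p2| := abs_add_le _ _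
        _ ≤ L + (|u q1 q2| + |u p1 p2|) := by gcongr; exact abs_sub _ _
        _ ≤ L + 2 * e := by linarith
    have h5 : |((q2 : ℝ) + v q1 q2) - (p2 + v p1 p2)| ≤ 2 + 2 * e := by
      calc |((q2 : ℝ) + v q1 q2) - (p2 + v p1 p2)| = |((q2 : ℝ) - p2) + (v q1 q2 - v p1 p2)| := by
            congr 1; ring
        _ ≤ |(q2 : ℝ) - p2| + |v q1 q2 - v p1 p2| := abs_add_le _ _
        _ ≤ 2 + (|v q1 q2| + |v p1 p2|) := by gcongr; exact abs_sub _ _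
        _ ≤ 2 + 2 * e := by linarith
    calc _ ≤ ‖(((q1 : ℝ) + u q1 q2) - (p1 + u p1 p2)) • e₁‖ +
          ‖(((q2 : ℝ) + v q1 q2) - (p2 + v p1 p2)) • e₂‖ := norm_add_le _ _
      _ = |((q1 : ℝ) + u q1 q2) - (p1 + u p1 p2)| * ‖e₁‖ +
          |((q2 : ℝ) + v q1 q2) - (p2 + v p1 p2)| * ‖e₂‖ := by
            rw [norm_smul, norm_smul, Real.norm_eq_abs, Real.norm_eq_abs]
      _ ≤ (L + 2 * e) * (K / √n) + (2 + 2 * e) * (K / √n) := by gcongr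
      _ = (L + (2 + 4 * e)) * (K / √n) := by ring
      _ ≤ (L + 3) * (K / √n) := by gcongr; linarith
  have hwa : ‖X (ψ q1 q2) - X (ψ p1 p2)‖ ≤ ‖a‖ := by
    refine le_trans hw ?_
    have h4 : (L + 3) * (K / √n) * (K / √n) ≤ ‖a‖ * (K / √n) := by
      calc (L + 3) * (K / √n) * (K / √n) = (20 * K ^ 2 * (L + 3)) / (20 * (√n * √n)) := by
            field_simp
        _ = (20 * K ^ 2 * (L + 3)) / (20 * n) := by rw [hsqsq]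
        _ ≤ (κ * N) / (20 * n) := by gcongr
        _ = N / 20 * (κ / n) := by ring
        _ ≤ N / 20 * |cr e₁ e₂| := by gcongr
        _ ≤ ‖a‖ * (K / √n) := hpn'
    exact le_of_mul_le_mul_right h4 hKs
  have hinner : 0 ≤ inner ℝ a b := by
    have h4 : b = a + (X (ψ q1 q2) - X (ψ p1 p2)) := by rw [ha, hb]; abel
    rw [h4, inner_add_right, real_inner_self_eq_norm_sq]
    have h5 := abs_real_inner_le_norm a (X (ψ q1 q2) - X (ψ p1 p2))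
    have h6 : ‖a‖ * ‖X (ψ q1 q2) - X (ψ p1 p2)‖ ≤ ‖a‖ * ‖a‖ := by gcongr
    have h7 := (abs_le.1 h5).1
    nlinarith
  have hcr : cr a b = Dt u v p1 p2 q1 q2 m1 m2 * cr e₁ e₂ := by
    rw [ha, hb, hf.hX m1 m2 p1 p2, hf.hX m1 m2 q1 q2, cr_comb, Dt]
    ring
  have hle := angle_le hinner hapos hbpos
  rw [hcr, abs_mul] at hle
  have hle2 : A * (‖a‖ * ‖b‖) ≤ Real.pi / 2 * (|Dt u v p1 p2 q1 q2 m1 m2| * |cr e₁ e₂|) := by
    refine le_trans ?_ hle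
    gcongr
  -- lower bound for the lengths
  have hlen : N / 20 * |cr e₁ e₂| * (N / 20 * |cr e₁ e₂|) ≤ (‖a‖ * ‖b‖) * (K ^ 2 / n) := by
    calc N / 20 * |cr e₁ e₂| * (N / 20 * |cr e₁ e₂|) ≤
        (‖a‖ * (K / √n)) * (‖b‖ * (K / √n)) := by gcongr
      _ = (‖a‖ * ‖b‖) * (K ^ 2 / (√n * √n)) := by field_simp
      _ = (‖a‖ * ‖b‖) * (K ^ 2 / n) := by rw [hsqsq]
  by_contra hcon
  push Not at hcon
  have hpi := Real.pi_pos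
  have c1 : A * (N / 20 * |cr e₁ e₂| * (N / 20 * |cr e₁ e₂|)) ≤
      Real.pi / 2 * (α * |cr e₁ e₂|) * (K ^ 2 / n) := by
    calc A * (N / 20 * |cr e₁ e₂| * (N / 20 * |cr e₁ e₂|)) ≤
        A * ((‖a‖ * ‖b‖) * (K ^ 2 / n)) := by gcongr
      _ = (A * (‖a‖ * ‖b‖)) * (K ^ 2 / n) := by ring
      _ ≤ (Real.pi / 2 * (|Dt u v p1 p2 q1 q2 m1 m2| * |cr e₁ e₂|)) * (K ^ 2 / n) := by gcongr
      _ ≤ Real.pi / 2 * (α * |cr e₁ e₂|) * (K ^ 2 / n) := by gcongr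
  have c2 : A * (κ * N ^ 2) ≤ α * (200 * Real.pi * K ^ 2) := by
    have c3 : (A * N ^ 2 * |cr e₁ e₂| * n) * |cr e₁ e₂| ≤
        (α * (200 * Real.pi * K ^ 2)) * |cr e₁ e₂| := by
      have c4 : A * (N / 20 * |cr e₁ e₂| * (N / 20 * |cr e₁ e₂|)) * (400 * n) ≤
          Real.pi / 2 * (α * |cr e₁ e₂|) * (K ^ 2 / n) * (400 * n) := by gcongr
      have c5 : A * (N / 20 * |cr e₁ e₂| * (N / 20 * |cr e₁ e₂|)) * (400 * n) =
          (A * N ^ 2 * |cr e₁ e₂| * n) * |cr e₁ e₂| := by ring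
      have c6 : Real.pi / 2 * (α * |cr e₁ e₂|) * (K ^ 2 / n) * (400 * n) =
          (α * (200 * Real.pi * K ^ 2)) * |cr e₁ e₂| := by field_simp; ring
      rw [c5, c6] at c4
      exact c4
    have c7 := le_of_mul_le_mul_right c3 hΔ
    have c8 : κ ≤ |cr e₁ e₂| * n := by
      rw [div_le_iff₀ hn0] at h3
      exact h3
    calc A * (κ * N ^ 2) ≤ A * ((|cr e₁ e₂| * n) * N ^ 2) := by gcongr
      _ = A * N ^ 2 * |cr e₁ e₂| * n := by ring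
      _ ≤ α * (200 * Real.pi * K ^ 2) := c7
  linarith

end Pool.Agent.Grain
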